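import Pool.Agent.Helper64.PC.Core

/-!
# Closure of a small set of rows under decisions
-/

namespace Pool.Agent.Helper50.PC

open Cardinal Set Pool.Agent.Helper64.PC

/-- The arities: leaves and nodes with countably many children. -/
def CLOSURE_ar (α : Type) : Option α → Type
  | none => Empty
  | some _ => ℕ

/-- `p` is the condition with the rows `s n` at `c n`. -/
def CLOSURE_is {K : Type} (c : ℕ → K) (s : ℕ → ℕ → Option Bool) (p : Sil K) : Prop :=
  (∀ n, p.val (c n) = s n) ∧ p.supp ⊆ range c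

theorem CLOSURE_uniq {K : Type} {c : ℕ → K} {s : ℕ → ℕ → Option Bool} {p q : Sil K}
    (hp : CLOSURE_is c s p) (hq : CLOSURE_is c s q) : p = q := by
  apply Sil.ext
  funext ξ
  by_cases h : ξ ∈ range c
  · obtain ⟨n, rfl⟩ := h
    rw [hp.1 n, hq.1 n]
  · funext z
    have h1 : p.val ξ z = none := by
      by_contra h'
      exact h (hp.2 ⟨z, h'⟩)
    have h2 : q.val ξ z = none := by
      by_contra h'
      exact h (hq.2 ⟨z, h'⟩)
    rw [h1, h2]

theorem CLOSURE_enum {K : Type} (k : K) {S : Set K} (hS : S.Countable) :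
    ∃ f : ℕ → K, insert k S = range f := by
  have h : (insert k S).Countable := hS.insert k
  exact h.exists_eq_range ⟨k, mem_insert k S⟩

theorem CLOSURE_alpha {Y : Type} (hY : #Y ≤ 𝔠) :
    #(Option (Y × (ℕ → ℕ → Option Bool) × ℕ)) ≤ 𝔠 := by
  have h1 : #(Option Bool) ≤ 𝔠 :=
    (Cardinal.mk_le_aleph0 (α := Option Bool)).trans Cardinal.aleph0_le_continuum
  have h2 : #(ℕ → Option Bool) ≤ 𝔠 := by
    rw [← Cardinal.power_def, Cardinal.mk_nat]
    exact (Cardinal.power_le_power_right h1).trans Cardinal.continuum_power_aleph0.le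
  have h3 : #(ℕ → ℕ → Option Bool) ≤ 𝔠 := by
    rw [← Cardinal.power_def, Cardinal.mk_nat]
    exact (Cardinal.power_le_power_right h2).trans Cardinal.continuum_power_aleph0.le
  have h4 : #((ℕ → ℕ → Option Bool) × ℕ) ≤ 𝔠 := by
    rw [Cardinal.mk_prod, Cardinal.lift_id, Cardinal.lift_id, Cardinal.mk_nat]
    exact (mul_le_mul' h3 Cardinal.aleph0_le_continuum).trans Cardinal.continuum_mul_self.le
  have h5 : #(Y × (ℕ → ℕ → Option Bool) × ℕ) ≤ 𝔠 := by
    rw [Cardinal.mk_prod, Cardinal.lift_id, Cardinal.lift_id]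
    exact (mul_le_mul' hY h4).trans Cardinal.continuum_mul_self.le
  rw [Cardinal.mk_option]
  refine (add_le_add h5 (le_trans ?_ Cardinal.aleph0_le_continuum)).trans
    Cardinal.continuum_add_self.le
  exact Cardinal.one_le_aleph0

theorem CLOSURE_wt {α : Type} (hα : #(Option α) ≤ 𝔠) : #(WType (CLOSURE_ar α)) ≤ 𝔠 := by
  refine WType.cardinalMk_le_of_le' ?_
  have h1 : ∀ a : Option α, 𝔠 ^ Cardinal.lift.{0} #(CLOSURE_ar α a) ≤ (𝔠 : Cardinal.{0}) := by
    intro a
    cases a with
    | none =>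
      have h0 : #(CLOSURE_ar α none) = 0 := by
        change #Empty = 0
        exact Cardinal.mk_eq_zero Empty
      rw [h0, Cardinal.lift_zero, Cardinal.power_zero]
      exact Cardinal.one_le_aleph0.trans Cardinal.aleph0_le_continuum
    | some a =>
      have h0 : #(CLOSURE_ar α (some a)) = ℵ₀ := by
        change #ℕ = ℵ₀
        exact Cardinal.mk_nat
      rw [h0, Cardinal.lift_aleph0]
      exact Cardinal.continuum_power_aleph0.le
  refine (Cardinal.sum_le_sum _ (fun _ => (𝔠 : Cardinal.{0})) h1).trans ?_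
  rw [Cardinal.sum_const']
  exact (mul_le_mul' hα le_rfl).trans Cardinal.continuum_mul_self.le

theorem st_closure : ST_closure := by
  classical
  intro K Y D hY hD
  rcases isEmpty_or_nonempty K with hK | ⟨⟨k₀⟩⟩
  · refine ⟨∅, by simp, fun y a _ => ?_⟩
    obtain ⟨q, hq, hd⟩ := hD y a
    exact ⟨q, hq, fun ξ _ => (hK.false ξ).elim, hd⟩
  choose b hb hbD using hD
  have hg : ∀ y a, ∃ f : ℕ → K, insert k₀ (b y a).supp = range f :=
    fun y a => CLOSURE_enum k₀ (b y a).cnt
  choose g hg using hg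
  let β := CLOSURE_ar (Y × (ℕ → ℕ → Option Bool) × ℕ)
  let F : (Σ a, β a → K) → K := fun x =>
    match x with
    | ⟨none, _⟩ => k₀
    | ⟨some (y, s, m), c⟩ =>
      if h : ∃ p : Sil K, CLOSURE_is c s p then g y h.choose m else k₀
  let ev : WType β → K := WType.elim K F
  refine ⟨range ev, Cardinal.mk_range_le.trans (CLOSURE_wt (CLOSURE_alpha hY)), ?_⟩
  intro y a ha
  refine ⟨b y a, hb y a, ?_, hbD y a⟩
  have hk : k₀ ∈ range ev := ⟨WType.mk none (fun e => nomatch e), rfl⟩
  obtain ⟨f, hf⟩ := CLOSURE_enum k₀ a.cnt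
  have hfr : ∀ n, ∃ w, ev w = f n := by
    intro n
    have h1 : f n ∈ insert k₀ {ξ | ∃ z, a.val ξ z ≠ none} := by
      rw [hf]
      exact ⟨n, rfl⟩
    rcases h1 with h1 | h1
    · rw [h1]
      exact hk
    · exact ha h1
  choose c hc using hfr
  have his : CLOSURE_is (fun n => ev (c n)) (fun n => a.val (ev (c n))) a := by
    refine ⟨fun n => rfl, fun ξ hξ => ?_⟩
    have h1 : ξ ∈ insert k₀ {ξ | ∃ z, a.val ξ z ≠ none} := Or.inr hξ
    rw [hf] at h1
    obtain ⟨n, hn⟩ := h1
    exact ⟨n, by rw [← hn]; exact hc n⟩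
  intro ξ hξ
  have h2 : ξ ∈ range (g y a) := by
    rw [← hg y a]
    exact Or.inr hξ
  obtain ⟨m, hm⟩ := h2
  refine ⟨WType.mk (some (y, (fun n => a.val (ev (c n))), m)) c, ?_⟩
  have hex : ∃ p : Sil K, CLOSURE_is (fun n => ev (c n)) (fun n => a.val (ev (c n))) p :=
    ⟨a, his⟩
  have hch : hex.choose = a := CLOSURE_uniq hex.choose_spec his
  have h3 : ev (WType.mk (some (y, (fun n => a.val (ev (c n))), m)) c) =
      if h : ∃ p : Sil K, CLOSURE_is (fun n => ev (c n)) (fun n => a.val (ev (c n))) p then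
        g y h.choose m else k₀ := rfl
  rw [h3, dif_pos hex, hch, hm]

end Pool.Agent.Helper50.PC
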