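import Pool.Agent.Helper64.PC.Frc

/-!
# The meaning of the formula `inCut`
-/

namespace Pool.Agent.Helper50.PC

open Pool.Agent.Helper46.SP Pool.Agent.Helper94.SP Name Pool.Agent.Helper64.PC

section

variable {P : Type} [Preorder P] [OrderTop P] {k : ℕ}

theorem CUT_inner (v : Fin k → Name P) (x : Fin k) (n s : Name P) (i : ℕ) (q : P)
    (hx : NFun (v x) q) :
    Fo (.ex (.and (.relMem x.succ.succ.succ.succ 1 0) (.relMem 3 1 0)))
      (Fin.cons (num i) (Fin.cons s (Fin.cons n v : Fin (k + 1) → Name P) :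
        Fin (k + 2) → Name P)) q ↔
      Fd {r | ∃ a, FP (v x) i a r ∧ FP n i a r} q := by
  rw [fo_ex]
  constructor
  · intro h
    refine Fd.dense fun q1 hq1 => ?_
    obtain ⟨r, hr, a, ha1, ha2⟩ := h q1 hq1
    have h1 : FMem (opair (num i) a) (v x) r := (fo_relMem _ _ _ _ _).1 ha1
    have h2 : FMem (opair (num i) a) n r := (fo_relMem _ _ _ _ _).1 ha2
    obtain ⟨s', hs', i', m, e1, e2, e3⟩ := hx.num_of_mem (hr.trans hq1) h1 r le_rfl
    obtain rfl := num_inj e1
    refine ⟨s', hs'.trans hr, Fd.of_mem (a := s') ⟨m, e3, ?_⟩ le_rfl⟩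
    exact fmem_congr (opair_congr (feq_refl _ _) e2) (feq_refl _ _) (fmem_mono h2 hs')
  · intro h q1 hq1
    obtain ⟨r, hr, a, ⟨m, hm1, hm2⟩, hra⟩ := h q1 hq1
    refine ⟨r, hr, num m, ?_⟩
    rw [fo_and]
    constructor
    · rw [fo_relMem]
      exact fmem_mono hm1 hra
    · rw [fo_relMem]
      exact fmem_mono hm2 hra

theorem CUT_chi (v : Fin k → Name P) (q : Fin k) (n : Name P) (j b : ℕ) (t : P)
    (hn : NFun n t) :
    Fo (.all (.all (.imp (.relMem q.succ.succ.succ.succ.succ 1 3)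
        (.imp (.relMem 4 1 0) (.mem 0 2)))))
      (Fin.cons (num b) (Fin.cons (num j) (Fin.cons n v : Fin (k + 1) → Name P) :
        Fin (k + 2) → Name P)) t ↔
      ∀ i a : ℕ, ∀ t' ≤ t, FP (v q) i j t' → FP n i a t' → a < b := by
  rw [fo_all]
  constructor
  · intro h i a t' ht' h1 h2
    have h3 := h (num i)
    rw [fo_all] at h3
    have h4 := h3 (num a)
    rw [fo_imp] at h4
    have h5 := h4 t' ht' ((fo_relMem _ _ _ _ _).2 h1)
    rw [fo_imp] at h5
    have h6 : FMem (num a) (num b : Name P) t' := h5 t' le_rfl ((fo_relMem _ _ _ _ _).2 h2)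
    rw [fmem_num] at h6
    obtain ⟨r, _, m, hm, he⟩ := h6 t' le_rfl
    rw [num_inj he]
    exact hm
  · intro h i
    rw [fo_all]
    intro a
    rw [fo_imp]
    intro t1 ht1 h1
    rw [fo_imp]
    intro t2 ht2 h2
    have h1' : FMem (opair i (num j)) (v q) t1 := (fo_relMem _ _ _ _ _).1 h1
    have h2' : FMem (opair i a) n t2 := (fo_relMem _ _ _ _ _).1 h2
    show FMem a (num b) t2
    refine fmem_dense fun u hu => ?_
    obtain ⟨s, hs', i', a', e1, e2, e3⟩ := hn.num_of_mem (ht2.trans ht1) h2' u hu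
    have h4 : FP (v q) i' j s := fmem_congr (opair_congr e1 (feq_refl _ _)) (feq_refl _ _)
      (fmem_mono h1' (hs'.trans (hu.trans ht2)))
    have h5 := h i' a' s (hs'.trans (hu.trans (ht2.trans ht1))) h4 e3
    exact ⟨s, hs', fmem_congr (feq_symm e2) (feq_refl _ _) (fmem_num_of_lt h5 s)⟩

end

theorem st_cut (hf : ST_fun) (hl : ST_large) : ST_cut := by
  intro P _ _ k v w F q x p hw hF hq hx
  have body : ∀ r ≤ p, ∀ n : Name P,
      Fo (.and (Fm.isFun w.succ 0) (.and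
        (.ex (.and (.mem 0 F.succ.succ) (.all (.imp (.mem 0 1)
          (.ex (.and (.relMem x.succ.succ.succ.succ 1 0) (.relMem 3 1 0)))))))
        (.all (.imp (.mem 0 w.succ.succ) (.ex (.and (.mem 0 w.succ.succ.succ)
          (.all (.all (.imp (.relMem q.succ.succ.succ.succ.succ 1 3)
            (.imp (.relMem 4 1 0) (.mem 0 2)))))))))))
        (Fin.cons n v : Fin (k + 1) → Name P) r ↔
      (NFun n r ∧
        FMem (rho fun i => {s | ∃ a, FP (v x) i a s ∧ FP n i a s}) (v F) r ∧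
        ∀ j : ℕ, ∀ s ≤ r, ∃ t ≤ s, ∃ b : ℕ, ∀ i a : ℕ, ∀ t' ≤ t, FP (v q) i j t' →
          FP n i a t' → a < b) := by
    intro r hr n
    have hw' : FEq ((Fin.cons n v : Fin (k + 1) → Name P) w.succ) omega r := feq_mono hw hr
    have e1 := hf P (k + 1) (Fin.cons n v) w.succ 0 r hw'
    have e2 := hl P (k + 1) (Fin.cons n v) F.succ
      (.ex (.and (.relMem x.succ.succ.succ.succ 1 0) (.relMem 3 1 0)))
      (fun i => {s | ∃ a, FP (v x) i a s ∧ FP n i a s}) r (hF.mono hr)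
      (fun s i q' hq' => CUT_inner v x n s i q' (hx.mono (hq'.trans hr)))
    have e3 := fo_all_omega (.ex (.and (.mem 0 w.succ.succ.succ)
          (.all (.all (.imp (.relMem q.succ.succ.succ.succ.succ 1 3)
            (.imp (.relMem 4 1 0) (.mem 0 2)))))))
      (Fin.cons n v : Fin (k + 1) → Name P) w.succ hw'
    rw [fo_and, fo_and]
    constructor
    · rintro ⟨h1, h2, h3⟩
      have h1' : NFun n r := e1.1 h1
      refine ⟨h1', e2.1 h2, fun j s hs' => ?_⟩
      have h4 := (fo_ex_omega _ _ w.succ.succ (p := r) hw').1 (e3.1 h3 j) s hs'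
      obtain ⟨t, ht, b, hb⟩ := h4
      exact ⟨t, ht, b, (CUT_chi v q n j b t (h1'.mono (ht.trans hs'))).1 hb⟩
    · rintro ⟨h1, h2, h3⟩
      refine ⟨e1.2 h1, e2.2 h2, e3.2 fun j => ?_⟩
      refine (fo_ex_omega _ _ w.succ.succ (p := r) hw').2 fun s hs' => ?_
      obtain ⟨t, ht, b, hb⟩ := h3 j s hs'
      exact ⟨t, ht, b, (CUT_chi v q n j b t (h1.mono (ht.trans hs'))).2 hb⟩
  have e0 := fo_ex (.and (Fm.isFun w.succ 0) (.and
        (.ex (.and (.mem 0 F.succ.succ) (.all (.imp (.mem 0 1)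
          (.ex (.and (.relMem x.succ.succ.succ.succ 1 0) (.relMem 3 1 0)))))))
        (.all (.imp (.mem 0 w.succ.succ) (.ex (.and (.mem 0 w.succ.succ.succ)
          (.all (.all (.imp (.relMem q.succ.succ.succ.succ.succ 1 3)
            (.imp (.relMem 4 1 0) (.mem 0 2))))))))))) v p
  refine e0.trans ?_
  constructor
  · intro h p' hp'
    obtain ⟨r, hr, n, hn⟩ := h p' hp'
    exact ⟨r, hr, n, (body r (hr.trans hp') n).1 hn⟩
  · intro h p' hp'
    obtain ⟨r, hr, n, hn⟩ := h p' hp'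
    exact ⟨r, hr, n, (body r (hr.trans hp') n).2 hn⟩

end Pool.Agent.Helper50.PC
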